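import Mathlib

/-!
Slit strip, asymptotics: the Beta-binomial distribution function
`Σ_{j ≤ p} C(L,j) (1/3)_j (1/3)_{L-j} / (2/3)_L` tends to Cardy's function
`Γ(2/3)/Γ(1/3)^2 ∫_0^a (t(1-t))^(-2/3) dt` when `L → ∞`, `p/L → a`.
-/

open Real Filter Topology MeasureTheory Finset

namespace Slit

/-- rising factorial -/
noncomputable def poch (s : ℝ) (n : ℕ) : ℝ := ∏ i ∈ range n, (s + i)

/-- Cardy's function for the cross-ratio `a` -/
noncomputable def cardy (a : ℝ) : ℝ :=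
  Gamma (2 / 3) / Gamma (1 / 3) ^ 2 * ∫ t in (0 : ℝ)..a, (t * (1 - t)) ^ (-(2 / 3) : ℝ)

/-- the Beta-binomial distribution function -/
noncomputable def urn (L p : ℕ) : ℝ :=
  (∑ j ∈ range (p + 1), (L.choose j : ℝ) * poch (1 / 3) j * poch (1 / 3) (L - j)) / poch (2 / 3) L

theorem poch_pos {s : ℝ} (hs : 0 < s) (n : ℕ) : 0 < poch s n :=
  prod_pos fun i _ => by positivity

theorem poch_one (n : ℕ) : poch 1 n = (n.factorial : ℝ) := by
  induction n with
  | zero => simp [poch]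
  | succ n ih =>
    unfold poch at *
    rw [prod_range_succ, ih, Nat.factorial_succ]
    push_cast
    ring

theorem poch_GammaSeq {s : ℝ} (hs : 0 < s) {n : ℕ} (hn : n ≠ 0) :
    poch s (n + 1) = (n : ℝ) ^ s * (n.factorial : ℝ) / Real.GammaSeq s n := by
  have hn' : (0 : ℝ) < n := by positivity
  have h1 : (∏ j ∈ range (n + 1), (s + j)) ≠ 0 := (poch_pos hs (n + 1)).ne'
  have h2 : (n : ℝ) ^ s * (n.factorial : ℝ) ≠ 0 := by positivity
  unfold poch Real.GammaSeq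
  field_simp

/-- ratio of rising factorials -/
theorem ratio_lim {s t : ℝ} (hs : 0 < s) (ht : 0 < t) :
    Tendsto (fun n : ℕ => (poch s n / poch t n) * ((n : ℝ) + 1) ^ (t - s)) atTop
      (𝓝 (Gamma t / Gamma s)) := by
  rw [← tendsto_add_atTop_iff_nat 1]
  have hGs := Real.GammaSeq_tendsto_Gamma s
  have hGt := Real.GammaSeq_tendsto_Gamma t
  have h1 := hGt.div hGs (Gamma_pos_of_pos hs).ne'
  have h2 : Tendsto (fun n : ℕ => (((n : ℝ) + 1 + 1) / n) ^ (t - s)) atTop (𝓝 (1 ^ (t - s))) := by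
    apply Tendsto.rpow_const _ (Or.inl one_ne_zero)
    have h3 : Tendsto (fun n : ℕ => 1 + 2 * (1 / (n : ℝ))) atTop (𝓝 (1 + 2 * 0)) :=
      (tendsto_one_div_atTop_nhds_zero_nat.const_mul 2).const_add 1
    rw [mul_zero, add_zero] at h3
    refine h3.congr' ?_
    filter_upwards [eventually_ne_atTop 0] with n hn
    field_simp
    ring
  rw [Real.one_rpow] at h2
  have h4 := h1.mul h2
  rw [mul_one] at h4
  refine h4.congr' ?_
  filter_upwards [eventually_ne_atTop 0, hGs.eventually_ne (Gamma_pos_of_pos hs).ne',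
    hGt.eventually_ne (Gamma_pos_of_pos ht).ne'] with n hn hs1 ht1
  have hn' : (0 : ℝ) < n := by positivity
  rw [poch_GammaSeq hs hn, poch_GammaSeq ht hn]
  have e1 : (((n : ℝ) + 1 + 1) / n) ^ (t - s) = ((n : ℝ) + 1 + 1) ^ (t - s) / (n : ℝ) ^ (t - s) :=
    Real.div_rpow (by positivity) hn'.le _
  have e2 : (n : ℝ) ^ (t - s) = (n : ℝ) ^ t / (n : ℝ) ^ s := Real.rpow_sub hn' t s
  have h5 : (0 : ℝ) < (n : ℝ) ^ s := by positivity
  have h6 : (0 : ℝ) < (n : ℝ) ^ t := by positivity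
  have h7 : (0 : ℝ) < (n.factorial : ℝ) := by positivity
  simp only [Pi.div_apply]
  rw [e1, e2]
  push_cast
  field_simp

theorem ratio_bdd {s t : ℝ} (hs : 0 < s) (ht : 0 < t) :
    ∃ C : ℝ, 0 < C ∧ ∀ n : ℕ, (poch s n / poch t n) * ((n : ℝ) + 1) ^ (t - s) ≤ C := by
  obtain ⟨C, hC⟩ := (ratio_lim hs ht).bddAbove_range
  refine ⟨max C 1, by positivity, fun n => ?_⟩
  exact le_trans (hC ⟨n, rfl⟩) (le_max_left _ _)

/-! ### generic Riemann sums with singularities at the end points -/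

/-- step function -/
noncomputable def ph (D : ℕ → ℕ → ℝ) (n : ℕ) (t : ℝ) : ℝ :=
  n * D ⌊(n : ℝ) * t⌋₊ (n - 1 - ⌊(n : ℝ) * t⌋₊)

/-- the upper bound -/
def Bd (D : ℕ → ℕ → ℝ) : Prop := ∃ C : ℝ, 0 < C ∧ ∀ u v : ℕ, D u v ≤
    C * ((u : ℝ) + 1) ^ (-(2 / 3) : ℝ) * ((v : ℝ) + 1) ^ (-(2 / 3) : ℝ) *
      ((u : ℝ) + v + 1) ^ (1 / 3 : ℝ)

theorem ph_bound {D : ℕ → ℕ → ℝ} (hD : Bd D) :
    ∃ C : ℝ, 0 < C ∧ ∀ (n : ℕ) (t : ℝ), 0 < n → t ∈ Set.Ioo (0 : ℝ) 1 →
    ph D n t ≤ C * (t * (1 - t)) ^ (-(2 / 3) : ℝ) := by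
  obtain ⟨C, hC, h⟩ := hD
  refine ⟨C, hC, fun n t hn ht => ?_⟩
  have hn' : (0 : ℝ) < n := by exact_mod_cast hn
  have ht0 := ht.1
  have ht1 : 0 < 1 - t := by linarith [ht.2]
  set k := ⌊(n : ℝ) * t⌋₊ with hk
  have hk1 : (k : ℝ) ≤ n * t := Nat.floor_le (by positivity)
  have hk2 : (n : ℝ) * t < k + 1 := Nat.lt_floor_add_one _
  have hkn : k < n := by
    have : (k : ℝ) < n := by nlinarith
    exact_mod_cast this
  have hc : ((n - 1 - k : ℕ) : ℝ) + 1 = n - k := by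
    have : (n - 1 - k) + 1 = n - k := by omega
    rw [← Nat.cast_sub hkn.le, ← this]
    push_cast
    ring
  have h1 := h k (n - 1 - k)
  unfold ph
  rw [← hk]
  have e1 : (k : ℝ) + ((n - 1 - k : ℕ) : ℝ) + 1 = n := by linarith
  rw [e1, hc] at h1
  have a1 : ((k : ℝ) + 1) ^ (-(2 / 3) : ℝ) ≤ ((n : ℝ) * t) ^ (-(2 / 3) : ℝ) :=
    Real.rpow_le_rpow_of_nonpos (by positivity) hk2.le (by norm_num)
  have a2 : ((n : ℝ) - k) ^ (-(2 / 3) : ℝ) ≤ ((n : ℝ) * (1 - t)) ^ (-(2 / 3) : ℝ) :=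
    Real.rpow_le_rpow_of_nonpos (by positivity) (by nlinarith) (by norm_num)
  have hpos : (0 : ℝ) ≤ ((n : ℝ) - k) ^ (-(2 / 3) : ℝ) := by
    apply Real.rpow_nonneg
    have : (k : ℝ) ≤ n := by exact_mod_cast hkn.le
    linarith
  calc (n : ℝ) * D k (n - 1 - k) ≤ n * (C * ((k : ℝ) + 1) ^ (-(2 / 3) : ℝ) *
        ((n : ℝ) - k) ^ (-(2 / 3) : ℝ) * (n : ℝ) ^ (1 / 3 : ℝ)) :=
        mul_le_mul_of_nonneg_left h1 hn'.le
    _ ≤ n * (C * ((n : ℝ) * t) ^ (-(2 / 3) : ℝ) * ((n : ℝ) * (1 - t)) ^ (-(2 / 3) : ℝ) *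
        (n : ℝ) ^ (1 / 3 : ℝ)) := by
        apply mul_le_mul_of_nonneg_left _ hn'.le
        apply mul_le_mul_of_nonneg_right _ (by positivity)
        apply mul_le_mul _ a2 hpos (by positivity)
        exact mul_le_mul_of_nonneg_left a1 hC.le
    _ = C * (t * (1 - t)) ^ (-(2 / 3) : ℝ) := by
        rw [Real.mul_rpow hn'.le ht0.le, Real.mul_rpow hn'.le ht1.le, Real.mul_rpow ht0.le ht1.le]
        have e2 : (n : ℝ) * ((n : ℝ) ^ (-(2 / 3) : ℝ) * (n : ℝ) ^ (-(2 / 3) : ℝ) *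
            (n : ℝ) ^ (1 / 3 : ℝ)) = 1 := by
          rw [← Real.rpow_add hn', ← Real.rpow_add hn']
          have : (-(2 / 3) + -(2 / 3) + 1 / 3 : ℝ) = -1 := by norm_num
          rw [this, Real.rpow_neg_one, mul_inv_cancel₀ hn'.ne']
        calc n * (C * ((n : ℝ) ^ (-(2 / 3) : ℝ) * t ^ (-(2 / 3) : ℝ)) *
              ((n : ℝ) ^ (-(2 / 3) : ℝ) * (1 - t) ^ (-(2 / 3) : ℝ)) * (n : ℝ) ^ (1 / 3 : ℝ))
            = C * (t ^ (-(2 / 3) : ℝ) * (1 - t) ^ (-(2 / 3) : ℝ)) * ((n : ℝ) *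
              ((n : ℝ) ^ (-(2 / 3) : ℝ) * (n : ℝ) ^ (-(2 / 3) : ℝ) * (n : ℝ) ^ (1 / 3 : ℝ))) := by
              ring
          _ = _ := by rw [e2, mul_one]

theorem ph_nonneg {D : ℕ → ℕ → ℝ} (D0 : ∀ u v, 0 ≤ D u v) (n : ℕ) (t : ℝ) : 0 ≤ ph D n t :=
  mul_nonneg (Nat.cast_nonneg n) (D0 _ _)

theorem floor_lim {t : ℝ} (ht : 0 ≤ t) :
    Tendsto (fun n : ℕ => (⌊(n : ℝ) * t⌋₊ : ℝ) / n) atTop (𝓝 t) := by
  have h := (tendsto_nat_floor_mul_div_atTop (R := ℝ) ht).comp tendsto_natCast_atTop_atTop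
  refine h.congr (fun n => ?_)
  simp only [Function.comp]
  rw [mul_comm]

theorem ph_cell (D : ℕ → ℕ → ℝ) {n : ℕ} (hn : 0 < n) (j : ℕ) :
    IntervalIntegrable (ph D n) volume ((j : ℝ) / n) (((j : ℝ) + 1) / n) ∧
    ∫ t in ((j : ℝ) / n)..(((j : ℝ) + 1) / n), ph D n t = D j (n - 1 - j) := by
  have hn' : (0 : ℝ) < n := by exact_mod_cast hn
  have hle : (j : ℝ) / n ≤ ((j : ℝ) + 1) / n := by
    apply div_le_div_of_nonneg_right (by linarith) hn'.le
  have hae : ∀ᵐ t ∂volume, t ∈ Set.uIoc ((j : ℝ) / n) (((j : ℝ) + 1) / n) →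
      (n : ℝ) * D j (n - 1 - j) = ph D n t := by
    have hnull : ∀ᵐ t : ℝ ∂volume, t ≠ ((j : ℝ) + 1) / n := by
      rw [ae_iff]
      simp
    filter_upwards [hnull] with t ht1 ht
    rw [Set.uIoc_of_le hle] at ht
    have h1 : (j : ℝ) ≤ n * t := by
      have := ht.1.le
      rw [div_le_iff₀ hn'] at this
      linarith
    have h2 : (n : ℝ) * t < j + 1 := by
      have h3 : t < ((j : ℝ) + 1) / n := lt_of_le_of_ne ht.2 ht1
      rw [lt_div_iff₀ hn'] at h3
      linarith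
    have hfl : ⌊(n : ℝ) * t⌋₊ = j := by
      rw [Nat.floor_eq_iff (by linarith [Nat.cast_nonneg (α := ℝ) j])]
      exact ⟨h1, h2⟩
    unfold ph
    rw [hfl]
  constructor
  · have hc : IntervalIntegrable (fun _ : ℝ => (n : ℝ) * D j (n - 1 - j)) volume
        ((j : ℝ) / n) (((j : ℝ) + 1) / n) := intervalIntegrable_const
    refine hc.congr_ae ?_
    rw [Filter.EventuallyEq, ae_restrict_iff' measurableSet_uIoc]
    exact hae
  · rw [← intervalIntegral.integral_congr_ae hae, intervalIntegral.integral_const]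
    have : ((j : ℝ) + 1) / n - (j : ℝ) / n = 1 / n := by ring
    rw [this, smul_eq_mul]
    field_simp

theorem ph_sum (D : ℕ → ℕ → ℝ) {n : ℕ} (hn : 0 < n) (j : ℕ) :
    IntervalIntegrable (ph D n) volume 0 ((j : ℝ) / n) ∧
    ∫ t in (0 : ℝ)..((j : ℝ) / n), ph D n t = ∑ k ∈ range j, D k (n - 1 - k) := by
  induction j with
  | zero => simp
  | succ j ih =>
    have hc := ph_cell D hn j
    push_cast
    constructor
    · exact ih.1.trans hc.1
    · rw [← intervalIntegral.integral_add_adjacent_intervals ih.1 hc.1, ih.2, hc.2,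
        Finset.sum_range_succ]

theorem ph_measurable (D : ℕ → ℕ → ℝ) (n : ℕ) : Measurable (ph D n) := by
  unfold ph
  have h1 : Measurable (fun t : ℝ => ⌊(n : ℝ) * t⌋₊) := (measurable_id.const_mul _).nat_floor
  have h2 : Measurable (fun k : ℕ => (n : ℝ) * D k (n - 1 - k)) := measurable_from_top
  exact h2.comp h1

theorem weight_integrable :
    IntegrableOn (fun t : ℝ => (t * (1 - t)) ^ (-(2 / 3) : ℝ)) (Set.Ioo 0 1) := by
  have h := Complex.betaIntegral_convergent (u := (1 / 3 : ℝ)) (v := (1 / 3 : ℝ))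
    (by simp) (by simp)
  rw [intervalIntegrable_iff_integrableOn_Ioo_of_le zero_le_one] at h
  have h2 := h.norm
  refine h2.congr ?_
  rw [Filter.EventuallyEq, ae_restrict_iff' measurableSet_Ioo]
  refine Eventually.of_forall fun t ht => ?_
  have ht0 := ht.1
  have ht1 : 0 < 1 - t := by linarith [ht.2]
  rw [norm_mul]
  have e1 : ‖(t : ℂ) ^ (((1 / 3 : ℝ) : ℂ) - 1)‖ = t ^ (-(2 / 3) : ℝ) := by
    rw [Complex.norm_cpow_eq_rpow_re_of_pos ht0]
    congr 1
    simp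
    norm_num
  have e2 : ‖(1 - (t : ℂ)) ^ (((1 / 3 : ℝ) : ℂ) - 1)‖ = (1 - t) ^ (-(2 / 3) : ℝ) := by
    have : (1 - (t : ℂ)) = ((1 - t : ℝ) : ℂ) := by push_cast; ring
    rw [this, Complex.norm_cpow_eq_rpow_re_of_pos ht1]
    congr 1
    simp
    norm_num
  rw [e1, e2, Real.mul_rpow ht0.le ht1.le]

/-- normalisation -/
theorem cardy_one : cardy 1 = 1 := by
  unfold cardy
  have hB : Complex.betaIntegral (1 / 3 : ℝ) (1 / 3 : ℝ) =
      ((∫ t in (0 : ℝ)..1, (t * (1 - t)) ^ (-(2 / 3) : ℝ) : ℝ) : ℂ) := by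
    unfold Complex.betaIntegral
    rw [← intervalIntegral.integral_ofReal]
    apply intervalIntegral.integral_congr_ae
    refine Eventually.of_forall fun t ht => ?_
    rw [Set.uIoc_of_le zero_le_one] at ht
    have ht0 := ht.1
    have ht1 : 0 ≤ 1 - t := by linarith [ht.2]
    rw [Real.mul_rpow ht0.le ht1]
    push_cast
    rw [Complex.ofReal_cpow ht0.le, Complex.ofReal_cpow ht1]
    push_cast
    norm_num
  have hG := Complex.Gamma_mul_Gamma_eq_betaIntegral (s := (1 / 3 : ℝ)) (t := (1 / 3 : ℝ))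
    (by simp) (by simp)
  rw [hB, ← Complex.ofReal_add, Complex.Gamma_ofReal, Complex.Gamma_ofReal] at hG
  have hG2 : Gamma (1 / 3) * Gamma (1 / 3) = Gamma (1 / 3 + 1 / 3) *
      ∫ t in (0 : ℝ)..1, (t * (1 - t)) ^ (-(2 / 3) : ℝ) := by exact_mod_cast hG
  have h23 : (1 / 3 + 1 / 3 : ℝ) = 2 / 3 := by norm_num
  rw [h23] at hG2
  have hg := Gamma_pos_of_pos (show (0 : ℝ) < 1 / 3 by norm_num)
  rw [div_mul_eq_mul_div, ← hG2, sq, div_self (by positivity)]

/-- convergence of Riemann sums -/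
theorem sum_lim {D : ℕ → ℕ → ℝ} (D0 : ∀ u v, 0 ≤ D u v) (hD : Bd D)
    (hL : ∀ t ∈ Set.Ioo (0 : ℝ) 1, Tendsto (fun n : ℕ => ph D n t) atTop
      (𝓝 (Gamma (2 / 3) / Gamma (1 / 3) ^ 2 * (t * (1 - t)) ^ (-(2 / 3) : ℝ))))
    {N j : ℕ → ℕ} {a : ℝ} (hN : Tendsto N atTop atTop) (hj : ∀ m, j m ≤ N m)
    (ha : Tendsto (fun m => (j m : ℝ) / N m) atTop (𝓝 a)) :
    Tendsto (fun m => ∑ k ∈ range (j m), D k (N m - 1 - k)) atTop (𝓝 (cardy a)) := by
  obtain ⟨C, hC, hb⟩ := ph_bound hD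
  have hNpos : ∀ᶠ m in atTop, 0 < N m := hN.eventually_gt_atTop 0
  have ha0 : 0 ≤ a := ge_of_tendsto' ha fun m => by positivity
  have ha1 : a ≤ 1 := by
    refine le_of_tendsto ha ?_
    filter_upwards [hNpos] with m hm
    have : (0 : ℝ) < N m := by exact_mod_cast hm
    rw [div_le_one this]
    exact_mod_cast hj m
  set F : ℕ → ℝ → ℝ := fun m t => (Set.Ioc (0 : ℝ) ((j m : ℝ) / N m)).indicator (ph D (N m)) t
    with hF
  set G : ℝ → ℝ := fun t => (Set.Ioc (0 : ℝ) a).indicator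
    (fun t => Gamma (2 / 3) / Gamma (1 / 3) ^ 2 * (t * (1 - t)) ^ (-(2 / 3) : ℝ)) t with hG
  have hlim : Tendsto (fun m => ∫ t in Set.Ioo (0 : ℝ) 1, F m t) atTop
      (𝓝 (∫ t in Set.Ioo (0 : ℝ) 1, G t)) := by
    apply tendsto_integral_filter_of_dominated_convergence
      (fun t => C * (t * (1 - t)) ^ (-(2 / 3) : ℝ))
    · refine Eventually.of_forall fun m => ?_
      exact ((ph_measurable _ _).indicator measurableSet_Ioc).aestronglyMeasurable
    · filter_upwards [hNpos] with m hm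
      rw [ae_restrict_iff' measurableSet_Ioo]
      refine Eventually.of_forall fun t ht => ?_
      have h1 := hb (N m) t hm ht
      have h0 := ph_nonneg D0 (N m) t
      simp only [hF]
      by_cases h : t ∈ Set.Ioc (0 : ℝ) ((j m : ℝ) / N m)
      · rw [Set.indicator_of_mem h, Real.norm_eq_abs, abs_of_nonneg h0]
        exact h1
      · rw [Set.indicator_of_notMem h, norm_zero]
        exact h0.trans h1
    · exact weight_integrable.const_mul C
    · rw [ae_restrict_iff' measurableSet_Ioo]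
      have hnull : ∀ᵐ t : ℝ ∂volume, t ≠ a := by
        rw [ae_iff]
        simp
      filter_upwards [hnull] with t hta ht
      rcases lt_or_gt_of_ne hta with h | h
      · have hev : ∀ᶠ m in atTop, t < (j m : ℝ) / N m := ha.eventually_const_lt h
        have hGt : G t = Gamma (2 / 3) / Gamma (1 / 3) ^ 2 * (t * (1 - t)) ^ (-(2 / 3) : ℝ) := by
          simp only [hG]
          rw [Set.indicator_of_mem (show t ∈ Set.Ioc (0 : ℝ) a from ⟨ht.1, h.le⟩)]
        rw [hGt]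
        refine ((hL t ht).comp hN).congr' ?_
        filter_upwards [hev] with m hm
        simp only [hF, Function.comp]
        rw [Set.indicator_of_mem (show t ∈ Set.Ioc (0 : ℝ) ((j m : ℝ) / N m) from ⟨ht.1, hm.le⟩)]
      · have hev : ∀ᶠ m in atTop, (j m : ℝ) / N m < t := ha.eventually_lt_const h
        have hGt : G t = 0 := by
          simp only [hG]
          rw [Set.indicator_of_notMem]
          rintro ⟨_, h3⟩
          linarith
        rw [hGt]
        refine tendsto_const_nhds.congr' ?_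
        filter_upwards [hev] with m hm
        simp only [hF]
        rw [Set.indicator_of_notMem]
        rintro ⟨_, h3⟩
        linarith
  have hGint : ∫ t in Set.Ioo (0 : ℝ) 1, G t = cardy a := by
    simp only [hG]
    rw [setIntegral_indicator measurableSet_Ioc]
    unfold cardy
    rw [intervalIntegral.integral_of_le ha0, ← integral_const_mul]
    have e : (Set.Ioo (0 : ℝ) 1 ∩ Set.Ioc 0 a : Set ℝ) =ᵐ[volume] Set.Ioc 0 a := by
      rcases eq_or_lt_of_le ha1 with h | h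
      · subst h
        have : (Set.Ioo (0 : ℝ) 1 ∩ Set.Ioc 0 1) = Set.Ioo (0 : ℝ) 1 := by
          apply Set.inter_eq_left.mpr Set.Ioo_subset_Ioc_self
        rw [this]
        exact Ioo_ae_eq_Ioc
      · have : (Set.Ioo (0 : ℝ) 1 ∩ Set.Ioc 0 a) = Set.Ioc (0 : ℝ) a := by
          apply Set.inter_eq_right.mpr
          intro t ht
          exact ⟨ht.1, lt_of_le_of_lt ht.2 h⟩
        rw [this]
    exact setIntegral_congr_set e
  rw [hGint] at hlim
  refine hlim.congr' ?_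
  filter_upwards [hNpos] with m hm
  have hm' : (0 : ℝ) < N m := by exact_mod_cast hm
  have hjm : (j m : ℝ) / N m ≤ 1 := by
    rw [div_le_one hm']
    exact_mod_cast hj m
  have h0 : (0 : ℝ) ≤ (j m : ℝ) / N m := by positivity
  rw [← (ph_sum D hm (j m)).2, intervalIntegral.integral_of_le h0]
  simp only [hF]
  rw [setIntegral_indicator measurableSet_Ioc]
  have e : (Set.Ioo (0 : ℝ) 1 ∩ Set.Ioc 0 ((j m : ℝ) / N m) : Set ℝ) =ᵐ[volume]
      Set.Ioc 0 ((j m : ℝ) / N m) := by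
    rcases eq_or_lt_of_le hjm with h | h
    · rw [h]
      have : (Set.Ioo (0 : ℝ) 1 ∩ Set.Ioc 0 1) = Set.Ioo (0 : ℝ) 1 := by
        apply Set.inter_eq_left.mpr Set.Ioo_subset_Ioc_self
      rw [this]
      exact Ioo_ae_eq_Ioc
    · have : (Set.Ioo (0 : ℝ) 1 ∩ Set.Ioc 0 ((j m : ℝ) / N m)) =
          Set.Ioc (0 : ℝ) ((j m : ℝ) / N m) := by
        apply Set.inter_eq_right.mpr
        intro t ht
        exact ⟨ht.1, lt_of_le_of_lt ht.2 h⟩
      rw [this]
  exact setIntegral_congr_set e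

/-! ### the Beta-binomial weights -/

/-- the weights -/
noncomputable def bb (u v : ℕ) : ℝ :=
  ((u + v).choose u : ℝ) * poch (1 / 3) u * poch (1 / 3) v / poch (2 / 3) (u + v)

noncomputable def w1 (m : ℕ) : ℝ := (poch (1 / 3) m / poch 1 m) * ((m : ℝ) + 1) ^ (2 / 3 : ℝ)

noncomputable def v1 (m : ℕ) : ℝ := (poch 1 m / poch (2 / 3) m) * ((m : ℝ) + 1) ^ (-(1 / 3) : ℝ)

theorem w1_lim : Tendsto w1 atTop (𝓝 (1 / Gamma (1 / 3))) := by
  have h := ratio_lim (s := 1 / 3) (t := 1) (by norm_num) (by norm_num)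
  have e : (1 - 1 / 3 : ℝ) = 2 / 3 := by norm_num
  rw [e, Real.Gamma_one] at h
  exact h

theorem v1_lim : Tendsto v1 atTop (𝓝 (Gamma (2 / 3))) := by
  have h := ratio_lim (s := 1) (t := 2 / 3) (by norm_num) (by norm_num)
  have e : (2 / 3 - 1 : ℝ) = -(1 / 3) := by norm_num
  rw [e, Real.Gamma_one, div_one] at h
  exact h

theorem w1_nonneg (m : ℕ) : 0 ≤ w1 m := by
  unfold w1
  have := poch_pos (s := 1 / 3) (by norm_num) m
  have := poch_pos (s := 1) (by norm_num) m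
  positivity

theorem v1_nonneg (m : ℕ) : 0 ≤ v1 m := by
  unfold v1
  have := poch_pos (s := 1) (by norm_num) m
  have := poch_pos (s := 2 / 3) (by norm_num) m
  positivity

theorem bb_eq (u v : ℕ) : bb u v =
    (w1 u * ((u : ℝ) + 1) ^ (-(2 / 3) : ℝ)) * (w1 v * ((v : ℝ) + 1) ^ (-(2 / 3) : ℝ)) *
    (v1 (u + v) * ((u : ℝ) + v + 1) ^ (1 / 3 : ℝ)) := by
  unfold bb w1 v1
  have a1 := poch_pos (s := 1 / 3) (by norm_num) u
  have a2 := poch_pos (s := 1 / 3) (by norm_num) v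
  have a3 := poch_pos (s := 2 / 3) (by norm_num) (u + v)
  have hc : ((u + v).choose u : ℝ) = poch 1 (u + v) / (poch 1 u * poch 1 v) := by
    rw [poch_one, poch_one, poch_one, eq_div_iff (by positivity)]
    have h := Nat.add_choose_mul_factorial_mul_factorial u v
    have h2 : (((u + v).choose u * u.factorial * v.factorial : ℕ) : ℝ) =
        ((u + v).factorial : ℝ) := by
      rw [← h, Nat.choose_symm_add]
    push_cast at h2
    linarith
  have b1 := poch_pos (s := 1) (by norm_num) u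
  have b2 := poch_pos (s := 1) (by norm_num) v
  have b3 := poch_pos (s := 1) (by norm_num) (u + v)
  rw [hc]
  push_cast
  have e1 : ((u : ℝ) + 1) ^ (2 / 3 : ℝ) * ((u : ℝ) + 1) ^ (-(2 / 3) : ℝ) = 1 := by
    rw [← Real.rpow_add (by positivity)]; norm_num
  have e2 : ((v : ℝ) + 1) ^ (2 / 3 : ℝ) * ((v : ℝ) + 1) ^ (-(2 / 3) : ℝ) = 1 := by
    rw [← Real.rpow_add (by positivity)]; norm_num
  have e3 : ((u : ℝ) + v + 1) ^ (-(1 / 3) : ℝ) * ((u : ℝ) + v + 1) ^ (1 / 3 : ℝ) = 1 := by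
    rw [← Real.rpow_add (by positivity)]; norm_num
  rw [mul_assoc (poch (1 / 3) u / poch 1 u), e1, mul_assoc (poch (1 / 3) v / poch 1 v), e2,
    mul_assoc (poch 1 (u + v) / poch (2 / 3) (u + v)), e3]
  field_simp

theorem bb_nonneg (u v : ℕ) : 0 ≤ bb u v := by
  rw [bb_eq]
  have := w1_nonneg u
  have := w1_nonneg v
  have := v1_nonneg (u + v)
  positivity

theorem bb_bound : Bd bb := by
  obtain ⟨Cw, hCw, hw⟩ := ratio_bdd (s := 1 / 3) (t := 1) (by norm_num) (by norm_num)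
  obtain ⟨Cv, hCv, hv⟩ := ratio_bdd (s := 1) (t := 2 / 3) (by norm_num) (by norm_num)
  have hw' : ∀ m, w1 m ≤ Cw := by
    intro m
    have := hw m
    have e : (1 - 1 / 3 : ℝ) = 2 / 3 := by norm_num
    rw [e] at this
    exact this
  have hv' : ∀ m, v1 m ≤ Cv := by
    intro m
    have := hv m
    have e : (2 / 3 - 1 : ℝ) = -(1 / 3) := by norm_num
    rw [e] at this
    exact this
  refine ⟨Cw * Cw * Cv, by positivity, fun u v => ?_⟩
  rw [bb_eq]
  have n1 := w1_nonneg u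
  have n2 := w1_nonneg v
  have n3 := v1_nonneg (u + v)
  calc (w1 u * ((u : ℝ) + 1) ^ (-(2 / 3) : ℝ)) * (w1 v * ((v : ℝ) + 1) ^ (-(2 / 3) : ℝ)) *
      (v1 (u + v) * ((u : ℝ) + v + 1) ^ (1 / 3 : ℝ))
      ≤ (Cw * ((u : ℝ) + 1) ^ (-(2 / 3) : ℝ)) * (Cw * ((v : ℝ) + 1) ^ (-(2 / 3) : ℝ)) *
        (Cv * ((u : ℝ) + v + 1) ^ (1 / 3 : ℝ)) := by
        apply mul_le_mul _ (mul_le_mul_of_nonneg_right (hv' _) (by positivity)) (by positivity)
          (by positivity)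
        apply mul_le_mul (mul_le_mul_of_nonneg_right (hw' _) (by positivity))
          (mul_le_mul_of_nonneg_right (hw' _) (by positivity)) (by positivity) (by positivity)
    _ = _ := by ring

theorem bb_lim {t : ℝ} (ht : t ∈ Set.Ioo (0 : ℝ) 1) :
    Tendsto (fun n : ℕ => ph bb n t) atTop
      (𝓝 (Gamma (2 / 3) / Gamma (1 / 3) ^ 2 * (t * (1 - t)) ^ (-(2 / 3) : ℝ))) := by
  have ht0 := ht.1
  have ht1 : 0 < 1 - t := by linarith [ht.2]
  set k : ℕ → ℕ := fun n => ⌊(n : ℝ) * t⌋₊ with hk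
  set l : ℕ → ℕ := fun n => n - 1 - k n with hl
  have hkn : ∀ n : ℕ, 0 < n → k n < n := by
    intro n hn
    have hn' : (0 : ℝ) < n := by exact_mod_cast hn
    have : ((k n : ℕ) : ℝ) ≤ n * t := Nat.floor_le (by positivity)
    have : ((k n : ℕ) : ℝ) < n := by nlinarith
    exact_mod_cast this
  have hlc : ∀ n : ℕ, 0 < n → ((l n : ℕ) : ℝ) = n - 1 - k n := by
    intro n hn
    have h1 := hkn n hn
    have : l n + 1 + k n = n := by simp only [hl]; omega
    have h2 : ((l n : ℕ) : ℝ) + 1 + k n = n := by exact_mod_cast this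
    linarith
  have hinv : Tendsto (fun n : ℕ => 1 / (n : ℝ)) atTop (𝓝 0) := tendsto_one_div_atTop_nhds_zero_nat
  have lk : Tendsto (fun n : ℕ => ((k n : ℕ) : ℝ) / n) atTop (𝓝 t) := floor_lim ht0.le
  have ll : Tendsto (fun n : ℕ => ((l n : ℕ) : ℝ) / n) atTop (𝓝 (1 - t)) := by
    have h := (hinv.const_sub 1).sub lk
    rw [sub_zero] at h
    refine h.congr' ?_
    filter_upwards [eventually_gt_atTop 0] with n hn
    rw [hlc n hn]
    have : (n : ℝ) ≠ 0 := by positivity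
    field_simp
  have ktop : Tendsto k atTop atTop := by
    have h : Tendsto (fun n : ℕ => (n : ℝ) * t) atTop atTop :=
      tendsto_natCast_atTop_atTop.atTop_mul_const ht0
    exact tendsto_nat_floor_atTop.comp h
  have ltop : Tendsto l atTop atTop := by
    rw [← tendsto_natCast_atTop_iff (R := ℝ)]
    have h1 := ll.pos_mul_atTop ht1 (tendsto_natCast_atTop_atTop (R := ℝ))
    refine h1.congr' ?_
    filter_upwards [eventually_gt_atTop 0] with n hn
    have : (n : ℝ) ≠ 0 := by positivity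
    field_simp
  have w1' : Tendsto (fun n => w1 (k n)) atTop (𝓝 (1 / Gamma (1 / 3))) := w1_lim.comp ktop
  have w2' : Tendsto (fun n => w1 (l n)) atTop (𝓝 (1 / Gamma (1 / 3))) := w1_lim.comp ltop
  have w3' : Tendsto (fun n => v1 (k n + l n)) atTop (𝓝 (Gamma (2 / 3))) :=
    v1_lim.comp (tendsto_atTop_mono (fun n => by omega) ktop)
  have p1 : Tendsto (fun n : ℕ => ((((k n : ℕ) : ℝ) + 1) / n) ^ (-(2 / 3) : ℝ)) atTop
      (𝓝 (t ^ (-(2 / 3) : ℝ))) := by
    apply Tendsto.rpow_const _ (Or.inl ht0.ne')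
    have h := lk.add hinv
    rw [add_zero] at h
    refine h.congr (fun n => ?_)
    ring
  have p2 : Tendsto (fun n : ℕ => ((((l n : ℕ) : ℝ) + 1) / n) ^ (-(2 / 3) : ℝ)) atTop
      (𝓝 ((1 - t) ^ (-(2 / 3) : ℝ))) := by
    apply Tendsto.rpow_const _ (Or.inl ht1.ne')
    have h := ll.add hinv
    rw [add_zero] at h
    refine h.congr (fun n => ?_)
    ring
  have key := ((w1'.mul p1).mul (w2'.mul p2)).mul w3'
  have hval : 1 / Gamma (1 / 3) * t ^ (-(2 / 3) : ℝ) * (1 / Gamma (1 / 3) *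
      (1 - t) ^ (-(2 / 3) : ℝ)) * Gamma (2 / 3) =
      Gamma (2 / 3) / Gamma (1 / 3) ^ 2 * (t * (1 - t)) ^ (-(2 / 3) : ℝ) := by
    rw [Real.mul_rpow ht0.le ht1.le]
    have hg := Gamma_pos_of_pos (show (0 : ℝ) < 1 / 3 by norm_num)
    field_simp
  rw [hval] at key
  refine key.congr' ?_
  filter_upwards [eventually_gt_atTop 0] with n hn
  have hn' : (0 : ℝ) < n := by exact_mod_cast hn
  unfold ph
  show _ = (n : ℝ) * bb (k n) (l n)
  rw [bb_eq, Real.div_rpow (by positivity) hn'.le, Real.div_rpow (by positivity) hn'.le]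
  have hsum : ((k n : ℕ) : ℝ) + ((l n : ℕ) : ℝ) + 1 = n := by
    rw [hlc n hn]; ring
  rw [hsum]
  have e3 : (n : ℝ) ^ (-(2 / 3) : ℝ) * (n : ℝ) ^ (-(2 / 3) : ℝ) * (n * (n : ℝ) ^ (1 / 3 : ℝ)) =
      1 := by
    rw [← Real.rpow_one_add' hn'.le (by norm_num), ← Real.rpow_add hn', ← Real.rpow_add hn']
    norm_num
  have h5 : (0 : ℝ) < (n : ℝ) ^ (-(2 / 3) : ℝ) := by positivity
  set X := (n : ℝ) ^ (-(2 / 3) : ℝ) with hX
  have e4 : 1 / (X * X) = n * (n : ℝ) ^ (1 / 3 : ℝ) := by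
    rw [div_eq_iff (by positivity)]; linarith
  set a := (((k n : ℕ) : ℝ) + 1) ^ (-(2 / 3) : ℝ)
  set b := (((l n : ℕ) : ℝ) + 1) ^ (-(2 / 3) : ℝ)
  calc w1 (k n) * (a / X) * (w1 (l n) * (b / X)) * v1 (k n + l n) =
      (1 / (X * X)) * (w1 (k n) * a * (w1 (l n) * b) * v1 (k n + l n)) := by
        field_simp
    _ = _ := by rw [e4]; ring

/-- partial sums of the Beta-binomial distribution -/
theorem urn_eq {L p : ℕ} (hp : p ≤ L) : urn L p = ∑ k ∈ range (p + 1), bb k (L + 1 - 1 - k) := by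
  unfold urn
  rw [Finset.sum_div]
  apply Finset.sum_congr rfl
  intro k hk
  rw [Finset.mem_range] at hk
  have h : k + (L - k) = L := by omega
  rw [Nat.add_sub_cancel]
  unfold bb
  rw [h]

/-- `urn L p → cardy a` if `L → ∞`, `p / L → a`. -/
theorem urn_lim {L p : ℕ → ℕ} {a : ℝ} (hL : Tendsto L atTop atTop) (hp : ∀ m, p m ≤ L m)
    (ha : Tendsto (fun m => (p m : ℝ) / L m) atTop (𝓝 a)) :
    Tendsto (fun m => urn (L m) (p m)) atTop (𝓝 (cardy a)) := by
  have hinv : Tendsto (fun m => 1 / (L m : ℝ)) atTop (𝓝 0) :=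
    tendsto_one_div_atTop_nhds_zero_nat.comp hL
  have ha' : Tendsto (fun m => ((p m + 1 : ℕ) : ℝ) / ((L m + 1 : ℕ) : ℝ)) atTop (𝓝 a) := by
    have h1 := (ha.add hinv).div (hinv.const_add 1) (by norm_num)
    simp only [add_zero, div_one] at h1
    refine h1.congr' ?_
    filter_upwards [hL.eventually_gt_atTop 0] with m hm
    have hm' : (0 : ℝ) < L m := by exact_mod_cast hm
    simp only [Pi.div_apply]
    push_cast
    field_simp
  have h := sum_lim bb_nonneg bb_bound (fun t ht => bb_lim ht)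
    (tendsto_atTop_mono (fun m => Nat.le_succ (L m)) hL) (fun m => Nat.succ_le_succ (hp m)) ha'
  refine h.congr (fun m => ?_)
  rw [urn_eq (hp m)]

end Slit
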